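import Pool.Agent.Y52.SJ.Stm3

/-!
# The isotonic oscillator: an explicit symplectic map of the plane into a strip
-/

set_option autoImplicit false

namespace Pool.Agent.Y409.SJ

open Pool.Agent.Y52.SJ

/-- `r` -/
noncomputable def rr (g : ℝ) (z : ℝ × ℝ) : ℝ := Real.sqrt (z.1 ^ 2 + z.2 ^ 2 + 2 * g)

/-- `X` -/
noncomputable def XX (g : ℝ) (z : ℝ × ℝ) : ℝ := z.1 ^ 2 + z.2 ^ 2 + g + rr g z * z.1

lemma sg_eq (g : ℝ) (z : ℝ × ℝ) : sg g z = (1 / 2 - Real.arctan (rr g z * z.2 / XX g z) / Real.pi,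
    Real.pi * (z.1 ^ 2 + z.2 ^ 2 + g) - Real.pi * g ^ 2 / (2 * XX g z)) := rfl

lemma arg_pos {g : ℝ} (hg : 0 < g) (z : ℝ × ℝ) : 0 < z.1 ^ 2 + z.2 ^ 2 + 2 * g := by positivity

lemma rr_pos {g : ℝ} (hg : 0 < g) (z : ℝ × ℝ) : 0 < rr g z := Real.sqrt_pos.2 (arg_pos hg z)

lemma rr_sq {g : ℝ} (hg : 0 < g) (z : ℝ × ℝ) : rr g z ^ 2 = z.1 ^ 2 + z.2 ^ 2 + 2 * g :=
  Real.sq_sqrt (arg_pos hg z).le

lemma XX_pos {g : ℝ} (hg : 0 < g) (z : ℝ × ℝ) : 0 < XX g z := by
  have h1 : (rr g z * z.1) ^ 2 < (z.1 ^ 2 + z.2 ^ 2 + g) ^ 2 := by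
    rw [mul_pow, rr_sq hg]
    nlinarith [mul_nonneg (arg_pos hg z).le (sq_nonneg z.2), pow_pos hg 2]
  have h2 : 0 < z.1 ^ 2 + z.2 ^ 2 + g := by positivity
  have h3 := (abs_lt_of_sq_lt_sq' h1 h2.le).1
  unfold XX
  linarith

lemma key {g : ℝ} (hg : 0 < g) (z : ℝ × ℝ) :
    XX g z ^ 2 + (rr g z * z.2) ^ 2 + g ^ 2 = 2 * (z.1 ^ 2 + z.2 ^ 2 + g) * XX g z := by
  have h := rr_sq hg z
  have h2 : XX g z = z.1 ^ 2 + z.2 ^ 2 + g + rr g z * z.1 := rfl
  rw [h2]
  linear_combination (z.1 ^ 2 + z.2 ^ 2) * h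

lemma snd_eq {g : ℝ} (hg : 0 < g) (z : ℝ × ℝ) :
    (sg g z).2 = Real.pi / 2 * XX g z * (1 + (rr g z * z.2 / XX g z) ^ 2) := by
  rw [sg_eq]
  have hX := XX_pos hg z
  have h := key hg z
  have hD : z.1 ^ 2 + z.2 ^ 2 + g = (XX g z ^ 2 + (rr g z * z.2) ^ 2 + g ^ 2) / (2 * XX g z) := by
    rw [h]
    field_simp
  simp only
  rw [hD]
  field_simp
  ring

lemma smooth {g : ℝ} (hg : 0 < g) : ContDiff ℝ ((⊤ : ℕ∞) : WithTop ℕ∞) (sg g) := by
  have h1 : ContDiff ℝ ((⊤ : ℕ∞) : WithTop ℕ∞) (fun z : ℝ × ℝ => z.1 ^ 2 + z.2 ^ 2 + 2 * g) := by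
    fun_prop
  have h2 : ContDiff ℝ ((⊤ : ℕ∞) : WithTop ℕ∞) (rr g) := h1.sqrt fun z => (arg_pos hg z).ne'
  have h3 : ContDiff ℝ ((⊤ : ℕ∞) : WithTop ℕ∞) (XX g) := by
    unfold XX
    exact (by fun_prop : ContDiff ℝ ((⊤ : ℕ∞) : WithTop ℕ∞)
      (fun z : ℝ × ℝ => z.1 ^ 2 + z.2 ^ 2 + g)).add (h2.mul contDiff_fst)
  have h4 : sg g = fun z => (1 / 2 - Real.arctan (rr g z * z.2 / XX g z) / Real.pi,
    Real.pi * (z.1 ^ 2 + z.2 ^ 2 + g) - Real.pi * g ^ 2 / (2 * XX g z)) := rfl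
  rw [h4]
  refine ContDiff.prodMk ?_ ?_
  · exact contDiff_const.sub ((((h2.mul contDiff_snd).div h3 fun z => (XX_pos hg z).ne').arctan).div_const _)
  · refine ContDiff.sub (by fun_prop) (contDiff_const.div (contDiff_const.mul h3) fun z => ?_)
    have := XX_pos hg z
    positivity

lemma inj {g : ℝ} (hg : 0 < g) : Function.Injective (sg g) := by
  intro z w h
  have hzX := XX_pos hg z
  have hwX := XX_pos hg w
  have hpi := Real.pi_pos
  have h1 : rr g z * z.2 / XX g z = rr g w * w.2 / XX g w := by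
    have := congrArg Prod.fst h
    rw [sg_eq, sg_eq] at this
    simp only at this
    apply Real.arctan_injective
    field_simp at this
    linarith
  have h2 : XX g z = XX g w := by
    have := congrArg Prod.snd h
    rw [snd_eq hg, snd_eq hg, h1] at this
    have h3 : 0 < Real.pi / 2 * (1 + (rr g w * w.2 / XX g w) ^ 2) := by positivity
    apply mul_left_cancel₀ h3.ne'
    linarith
  have h3 : rr g z * z.2 = rr g w * w.2 := by
    rw [h2] at h1
    field_simp at h1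
    exact h1
  have h4 : z.1 ^ 2 + z.2 ^ 2 + g = w.1 ^ 2 + w.2 ^ 2 + g := by
    have k1 := key hg z
    have k2 := key hg w
    rw [h2, h3] at k1
    have h5 : 0 < 2 * XX g w := by positivity
    apply mul_left_cancel₀ h5.ne'
    linarith
  have h5 : rr g z = rr g w := by
    unfold rr
    congr 1
    linarith
  have hw := rr_pos hg w
  have h6 : z.2 = w.2 := by
    rw [h5] at h3
    exact mul_left_cancel₀ hw.ne' h3
  have h7 : z.1 = w.1 := by
    have e1 : XX g z = z.1 ^ 2 + z.2 ^ 2 + g + rr g z * z.1 := rfl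
    have e2 : XX g w = w.1 ^ 2 + w.2 ^ 2 + g + rr g w * w.1 := rfl
    rw [e1, e2, h4, h5] at h2
    exact mul_left_cancel₀ hw.ne' (by linarith)
  exact Prod.ext h7 h6

/-- directional derivatives -/
lemma dir {g : ℝ} (hg : 0 < g) (z w : ℝ × ℝ) :
    fderiv ℝ (sg g) z w =
      (-((((z.1 * w.1 + z.2 * w.2) / rr g z * z.2 + rr g z * w.2) * XX g z -
          rr g z * z.2 * (2 * (z.1 * w.1 + z.2 * w.2) +
            ((z.1 * w.1 + z.2 * w.2) / rr g z * z.1 + rr g z * w.1))) /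
          (Real.pi * (XX g z ^ 2 + (rr g z * z.2) ^ 2))),
        Real.pi * (2 * (z.1 * w.1 + z.2 * w.2)) + Real.pi * g ^ 2 *
          (2 * (z.1 * w.1 + z.2 * w.2) +
            ((z.1 * w.1 + z.2 * w.2) / rr g z * z.1 + rr g z * w.1)) / (2 * XX g z ^ 2)) := by
  have hr := rr_pos hg z
  have hX := XX_pos hg z
  have hpi := Real.pi_pos
  have hline : HasDerivAt (fun t : ℝ => z + t • w) w 0 := by
    simpa using ((hasDerivAt_id (0 : ℝ)).smul_const w).const_add z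
  have hz : z + (0 : ℝ) • w = z := by simp
  have hF : HasFDerivAt (sg g) (fderiv ℝ (sg g) z) (z + (0 : ℝ) • w) := by
    rw [hz]
    exact ((smooth hg).differentiable (by simp)).differentiableAt.hasFDerivAt
  have h1 : HasDerivAt (fun t : ℝ => sg g (z + t • w)) (fderiv ℝ (sg g) z w) 0 :=
    HasFDerivAt.comp_hasDerivAt (f := fun t : ℝ => z + t • w) (0 : ℝ) hF hline
  have hu : HasDerivAt (fun t : ℝ => (z + t • w).1) w.1 0 := by
    simpa using ((hasDerivAt_id (0 : ℝ)).mul_const w.1).const_add z.1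
  have hv : HasDerivAt (fun t : ℝ => (z + t • w).2) w.2 0 := by
    simpa using ((hasDerivAt_id (0 : ℝ)).mul_const w.2).const_add z.2
  have hD : HasDerivAt (fun t : ℝ => (z + t • w).1 ^ 2 + (z + t • w).2 ^ 2)
      (2 * (z.1 * w.1 + z.2 * w.2)) 0 := by
    refine ((hu.pow 2).add (hv.pow 2)).congr_deriv ?_
    rw [hz]
    push_cast
    ring
  have hR : HasDerivAt (fun t : ℝ => rr g (z + t • w)) ((z.1 * w.1 + z.2 * w.2) / rr g z) 0 := by
    have h2 := (hD.add_const (2 * g)).sqrt (by rw [hz]; exact (arg_pos hg z).ne')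
    refine h2.congr_deriv ?_
    rw [hz]
    change _ / (2 * rr g z) = _
    field_simp
  have hA : HasDerivAt (fun t : ℝ => rr g (z + t • w) * (z + t • w).2)
      ((z.1 * w.1 + z.2 * w.2) / rr g z * z.2 + rr g z * w.2) 0 := by
    refine (hR.mul hv).congr_deriv ?_
    rw [hz]
  have hXd : HasDerivAt (fun t : ℝ => XX g (z + t • w))
      (2 * (z.1 * w.1 + z.2 * w.2) + ((z.1 * w.1 + z.2 * w.2) / rr g z * z.1 + rr g z * w.1))
      0 := by
    refine ((hD.add_const g).add (hR.mul hu)).congr_deriv ?_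
    rw [hz]
  have hs : HasDerivAt (fun t : ℝ => (sg g (z + t • w)).1)
      (-((((z.1 * w.1 + z.2 * w.2) / rr g z * z.2 + rr g z * w.2) * XX g z -
          rr g z * z.2 * (2 * (z.1 * w.1 + z.2 * w.2) +
            ((z.1 * w.1 + z.2 * w.2) / rr g z * z.1 + rr g z * w.1))) /
          (Real.pi * (XX g z ^ 2 + (rr g z * z.2) ^ 2)))) 0 := by
    have h2 := (((hA.div hXd (by rw [hz]; exact hX.ne')).arctan).div_const Real.pi).const_sub (1 / 2)
    refine h2.congr_deriv ?_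
    simp only [Pi.div_apply]
    rw [hz]
    have hq : 0 < XX g z ^ 2 + (rr g z * z.2) ^ 2 := by positivity
    field_simp
  have hI : HasDerivAt (fun t : ℝ => (sg g (z + t • w)).2)
      (Real.pi * (2 * (z.1 * w.1 + z.2 * w.2)) + Real.pi * g ^ 2 *
          (2 * (z.1 * w.1 + z.2 * w.2) +
            ((z.1 * w.1 + z.2 * w.2) / rr g z * z.1 + rr g z * w.1)) / (2 * XX g z ^ 2)) 0 := by
    have h2 := ((hD.add_const g).const_mul Real.pi).sub
      ((hasDerivAt_const (0 : ℝ) (Real.pi * g ^ 2)).div (hXd.const_mul 2)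
        (by rw [hz]; positivity))
    refine h2.congr_deriv ?_
    rw [hz]
    field_simp
    ring
  exact h1.unique (hs.prodMk hI)

lemma det_aux (g u v r X a1 b1 a2 b2 p1 p2 : ℝ) (hX : X = u ^ 2 + v ^ 2 + g + r * u)
    (hr : r ^ 2 = u ^ 2 + v ^ 2 + 2 * g) (h1 : r * p1 = u * a1 + v * b1)
    (h2 : r * p2 = u * a2 + v * b2) :
    ((p1 * v + r * b1) * X - r * v * (2 * (r * p1) + (p1 * u + r * a1))) *
        (4 * X ^ 2 * (r * p2) + g ^ 2 * (2 * (r * p2) + (p2 * u + r * a2))) -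
      (4 * X ^ 2 * (r * p1) + g ^ 2 * (2 * (r * p1) + (p1 * u + r * a1))) *
        ((p2 * v + r * b2) * X - r * v * (2 * (r * p2) + (p2 * u + r * a2))) =
      -(2 * X ^ 2 * (X ^ 2 + (r * v) ^ 2) * (a1 * b2 - b1 * a2)) := by
  have e1 : (p1 * v + r * b1) * (r * p2) - (p2 * v + r * b2) * (r * p1) =
      -(r * u * (a1 * b2 - b1 * a2)) := by
    linear_combination (r * b1) * h2 - (r * b2) * h1
  have e2 : (2 * (r * p1) + (p1 * u + r * a1)) * (r * p2) -
      (2 * (r * p2) + (p2 * u + r * a2)) * (r * p1) = r * v * (a1 * b2 - b1 * a2) := by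
    linear_combination (r * a1) * h2 - (r * a2) * h1
  have e3 : (p1 * v + r * b1) * (2 * (r * p2) + (p2 * u + r * a2)) -
      (p2 * v + r * b2) * (2 * (r * p1) + (p1 * u + r * a1)) = -(2 * X * (a1 * b2 - b1 * a2)) := by
    rw [hX]
    linear_combination (v * a2 - u * b2 - 2 * r * b2) * h1 +
      (-v * a1 + u * b1 + 2 * r * b1) * h2 - (a1 * b2 - b1 * a2) * hr
  have e4 : X ^ 2 = 2 * X * (r * u) + r ^ 2 * v ^ 2 + g ^ 2 := by
    rw [hX]
    linear_combination (-(u ^ 2 + v ^ 2)) * hr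
  linear_combination (4 * X ^ 3) * e1 - (4 * X ^ 2 * (r * v)) * e2 + (g ^ 2 * X) * e3 +
    (2 * X ^ 2 * (a1 * b2 - b1 * a2)) * e4

theorem main : S_TRA := by
  intro g hg
  refine ⟨smooth hg, inj hg, fun z => ?_⟩
  have hr := rr_pos hg z
  have hX := XX_pos hg z
  have hpi := Real.pi_pos
  refine ⟨?_, ?_, ?_, ?_, fun u v => ?_⟩
  · rw [sg_eq]
    have h := Real.arctan_lt_pi_div_two (rr g z * z.2 / XX g z)
    have h2 : Real.arctan (rr g z * z.2 / XX g z) / Real.pi < 1 / 2 := by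
      rw [div_lt_iff₀ hpi]
      linarith
    simp only
    linarith
  · rw [sg_eq]
    have h := Real.neg_pi_div_two_lt_arctan (rr g z * z.2 / XX g z)
    have h2 : -(1 / 2) < Real.arctan (rr g z * z.2 / XX g z) / Real.pi := by
      rw [lt_div_iff₀ hpi]
      linarith
    simp only
    linarith
  · rw [snd_eq hg]
    positivity
  · rw [sg_eq]
    have : 0 < Real.pi * g ^ 2 / (2 * XX g z) := by positivity
    simp only
    linarith
  · rw [dir hg, dir hg]
    have hL : ∀ w : ℝ × ℝ, z.1 * w.1 + z.2 * w.2 =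
        rr g z * ((z.1 * w.1 + z.2 * w.2) / rr g z) := by
      intro w
      field_simp
    have h := det_aux g z.1 z.2 (rr g z) (XX g z) u.1 u.2 v.1 v.2
      ((z.1 * u.1 + z.2 * u.2) / rr g z) ((z.1 * v.1 + z.2 * v.2) / rr g z) rfl (rr_sq hg z)
      (hL u).symm (hL v).symm
    rw [← hL u, ← hL v] at h
    simp only
    generalize (z.1 * u.1 + z.2 * u.2) / rr g z = p1 at h ⊢
    generalize (z.1 * v.1 + z.2 * v.2) / rr g z = p2 at h ⊢
    generalize z.1 * u.1 + z.2 * u.2 = L1 at h ⊢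
    generalize z.1 * v.1 + z.2 * v.2 = L2 at h ⊢
    have hq : 0 < XX g z ^ 2 + (rr g z * z.2) ^ 2 := by positivity
    field_simp
    linear_combination -h

end Pool.Agent.Y409.SJ
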